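import Pool.Agent.Lib.H10R.Main

/-!
# MP_a7edd4_lc: the matched-pairs randomization test problem is PP-complete

`RTMP` is complete for PP under polynomial-time many-one reductions; hence it is in NP iff NP = PP.
-/

set_option autoImplicit false

namespace Pool.Agent.Results.MP_a7edd4_lc.PPComplete

open Pool.Agent.Lib.CookLevin Pool.Agent.Lib.H10R

/-- RTMP is in PP, every language of PP reduces to RTMP by a polynomial-time many-one reduction, and
consequently RTMP is in NP iff NP = PP. -/
theorem result :
    (InPP RTMP ∧ ∀ L : Word → Prop, InPP L → PolyReduces L RTMP) ∧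
      (InNP RTMP ↔ ∀ L : Word → Prop, InNP L ↔ InPP L) :=
  ⟨rtmp_ppComplete, rtmp_inNP_iff⟩

end Pool.Agent.Results.MP_a7edd4_lc.PPComplete
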